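import Pool.Agent.Helper996.Lin.Main2
import Pool.Agent.Helper996.Lin.Trans
import Pool.Agent.Helper996.Lin.Defs5b
import Pool.Agent.Helper996.Lin.J_cent
import Pool.Agent.Helper996.Lin.J_emb_Fof
import Pool.Agent.Helper996.Lin.J_Fof_rank
import Pool.Agent.Helper996.Lin.J_orbit
import Pool.Agent.Helper996.Lin.J_integer

/-!
Holomorphic maps `f : G_k^0 → X` to complex manifolds of dimension `l ≤ k - 2` whose fundamental
group is detected by squarefree polynomials with holomorphic coefficients induce maps of fundamental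
groups with abelian image.

* `LinS.cpoly k w` is the polynomial `X^k + ∑_{i<k-1} w_i X^i` (no term of degree `k-1`);
* `LinS.G0 k` is the open set of the `w : Fin (k-1) → ℂ` for which it is squarefree, i.e. has non-zero
  discriminant: the manifold `G_k^0` with coordinates `z_2,...,z_k`.
-/

set_option autoImplicit false

open Polynomial Set Filter Topology
open scoped Manifold ContDiff

namespace Pool.Agent.Results.MP_e382fa_ag.Detected

open LinS

/-- `f : M → M'` is holomorphic, for complex manifolds `M`, `M'` modelled on `E`, `E'` -/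
def Hol (E E' : Type*) [NormedAddCommGroup E] [NormedSpace ℂ E] [NormedAddCommGroup E']
    [NormedSpace ℂ E'] {M M' : Type*} [TopologicalSpace M] [ChartedSpace E M]
    [TopologicalSpace M'] [ChartedSpace E' M'] (f : M → M') : Prop :=
  MDifferentiable 𝓘(ℂ, E) 𝓘(ℂ, E') f

/-- `f` is continuous and the class `γ` of loops at `y` becomes trivial under `f` -/
def Kills {Y Z : Type*} [TopologicalSpace Y] [TopologicalSpace Z] (f : Y → Z) (y : Y)
    (γ : FundamentalGroup Y y) : Prop :=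
  ∃ hf : Continuous f, FundamentalGroup.map (⟨f, hf⟩ : C(Y, Z)) y γ = 1

/-- the fundamental group of the `l`-dimensional complex manifold `X` is detected by holomorphic maps
to the manifolds `G_n^0`, `n ≥ 3` -/
def DetectedByG (l : ℕ) (X : Type*) [TopologicalSpace X] [ChartedSpace (Fin l → ℂ) X] : Prop :=
  ∀ (x : X) (γ : FundamentalGroup X x),
    (∀ n : ℕ, 3 ≤ n → ∀ g : X → G0 n, Hol (Fin l → ℂ) (Fin (n - 1) → ℂ) g → Kills g x γ) → γ = 1

/-- `f` is continuous, and at every base point the image of the homomorphism of fundamental groups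
induced by `f` is abelian -/
def AbelianImage {Y Z : Type*} [TopologicalSpace Y] [TopologicalSpace Z] (f : Y → Z) : Prop :=
  ∃ hf : Continuous f, ∀ (y : Y) (α β : FundamentalGroup Y y),
    Commute (FundamentalGroup.map (⟨f, hf⟩ : C(Y, Z)) y α)
      (FundamentalGroup.map (⟨f, hf⟩ : C(Y, Z)) y β)

theorem comp_comm (k n l : ℕ) (hk : 4 < k) (hn : 3 ≤ n) (hl : l + 2 ≤ k)
    (X : Type*) [TopologicalSpace X] [ChartedSpace (Fin l → ℂ) X]
    [IsManifold 𝓘(ℂ, Fin l → ℂ) ω X]
    (f₁ : G0 k → X) (hf₁ : Hol (Fin (k - 1) → ℂ) (Fin l → ℂ) f₁)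
    (f₂ : X → G0 n) (hf₂ : Hol (Fin l → ℂ) (Fin (n - 1) → ℂ) f₂) (h : Continuous (f₂ ∘ f₁))
    (z : G0 k) (α β : FundamentalGroup (G0 k) z) :
    Commute (FundamentalGroup.map (⟨f₂ ∘ f₁, h⟩ : C(G0 k, G0 n)) z α)
      (FundamentalGroup.map (⟨f₂ ∘ f₁, h⟩ : C(G0 k, G0 n)) z β) := by
  obtain ⟨m, rfl⟩ : ∃ m, k = m + 1 := ⟨k - 1, by omega⟩
  have hc : MDifferentiable 𝓘(ℂ, Fin (m + 1 - 1) → ℂ) 𝓘(ℂ, Fin (n - 1) → ℂ) (f₂ ∘ f₁) :=
    MDifferentiable.comp hf₂ hf₁
  have hF : GoodF m n (Fof (f₂ ∘ f₁)) := Fof_good (by omega) _ hc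
  have h1 := main_full hF (fun r _ c => Fof_trans (f₂ ∘ f₁) r c) hn l (by omega) (by omega)
    (Fof_rank f₁ hf₁ f₂ hf₂)
  have h2 := orbit_of_shape hn (f₂ ∘ f₁) h1
  have h3 := integer_of_orbit hn ⟨f₂ ∘ f₁, h⟩ h2 z
  set φ := FundamentalGroup.map (⟨f₂ ∘ f₁, h⟩ : C(G0 (m + 1), G0 n)) z
  have ha : φ α ∈ φ.range := ⟨α, rfl⟩
  have hb : φ β ∈ φ.range := ⟨β, rfl⟩
  rcases h3 with h3 | ⟨⟨e⟩⟩
  · rw [h3, Subgroup.mem_bot] at ha
    rw [ha]
    exact Commute.one_left _
  · have h4 : (⟨φ α, ha⟩ : φ.range) * ⟨φ β, hb⟩ = ⟨φ β, hb⟩ * ⟨φ α, ha⟩ := by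
      apply e.injective
      rw [map_mul, map_mul, mul_comm]
    exact congrArg Subtype.val h4

/-- holomorphic maps from `G_k^0` to a manifold of dimension `l ≤ k - 2` whose fundamental group is
detected by holomorphic maps to the `G_n^0` have abelian image on fundamental groups -/
theorem result (k l : ℕ) (hk : 4 < k) (hl : l + 2 ≤ k)
    (X : Type*) [TopologicalSpace X] [ChartedSpace (Fin l → ℂ) X]
    [IsManifold 𝓘(ℂ, Fin l → ℂ) ω X] (hX : DetectedByG l X)
    (f : G0 k → X) (hf : Hol (Fin (k - 1) → ℂ) (Fin l → ℂ) f) : AbelianImage f := by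
  have hfc : Continuous f := MDifferentiable.continuous hf
  refine ⟨hfc, fun z α β => ?_⟩
  set φ := FundamentalGroup.map (⟨f, hfc⟩ : C(G0 k, X)) z with hφ
  have h1 : φ α * φ β * (φ α)⁻¹ * (φ β)⁻¹ = 1 := by
    apply hX
    intro n hn g hg
    have hgc : Continuous g := MDifferentiable.continuous hg
    refine ⟨hgc, ?_⟩
    have h2 := comp_comm k n l hk hn hl X f hf g hg (hgc.comp hfc) z α β
    have h3 : ∀ γ : FundamentalGroup (G0 k) z,
        FundamentalGroup.map (⟨g, hgc⟩ : C(X, G0 n)) (f z) (φ γ) =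
          FundamentalGroup.map (⟨g ∘ f, hgc.comp hfc⟩ : C(G0 k, G0 n)) z γ := by
      intro γ
      induction γ using Quotient.inductionOn
      rfl
    have h4 : FundamentalGroup.map (⟨g, hgc⟩ : C(X, G0 n)) (f z)
        (φ α * φ β * (φ α)⁻¹ * (φ β)⁻¹) = 1 := by
      rw [map_mul, map_mul, map_mul, map_inv, map_inv, h3, h3, h2.eq]
      group
    exact h4
  have h5 : φ α * φ β = φ β * φ α := mul_inv_eq_iff_eq_mul.1 (mul_inv_eq_one.1 h1)
  exact h5

end Pool.Agent.Results.MP_e382fa_ag.Detected
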